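import Mathlib
import Pool.Agent.R335.MK.Disc

/-!
# MP_4e48d5_nt: the metric lower bound for the van der Corput-Kronecker sequence

For almost every `α` there is `C > 0` such that the discrepancy of the first `N` terms of the hybrid
sequence `(x_n, {n α})`, `(x_n)` the van der Corput sequence in base 2, is at least
`C (log N) ^ 2 / N` for infinitely many `N`.

Proof. A mixed version of Khintchine's theorem (divergence case, from an overlap estimate, the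
Chung-Erdős inequality and Gallagher's zero-one law) gives for almost every `α` infinitely many pairs
`(j, k)`, `k` odd, `1 ≤ j ≤ i`, `4 ^ i ≤ k < 4 ^ (i + 1)`, such that `2 ^ j α` is at distance less than
`1 / (16 · 4 ^ i i ^ 2 k)` from a fraction with denominator `k`. For `N = 2 ^ j k i ^ 2` the box
`[0, 2 ^ (-j)) × [1 / (4 k), 3 / (4 k))` contains none of the first `N` points, but `N` times its area
is `i ^ 2 / 2`.
-/

set_option autoImplicit false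

open MeasureTheory Filter Topology Finset

namespace Pool.Agent.Results.MP_4e48d5_nt.MetricLowerBound

/-- The van der Corput sequence in base 2: `x_n = ∑_j a_j 2 ^ (-j-1)`, where `a_j = ⌊n / 2 ^ j⌋ mod 2` are
the binary digits of `n` (they vanish for `j ≥ n`). -/
noncomputable def vdc (n : ℕ) : ℝ := ∑ j ∈ range n, ((n / 2 ^ j % 2 : ℕ) : ℝ) / 2 ^ (j + 1)

/-- The hybrid sequence `z_n = (x_n, {n α})`. -/
noncomputable def z (α : ℝ) (n : ℕ) : ℝ × ℝ := (vdc n, Int.fract (n * α))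

/-- The local discrepancy `|#{0 ≤ n < N : z_n ∈ B} / N - λ(B)|` of the box
`B = [a₁, b₁) × [a₂, b₂)`. -/
noncomputable def local_disc (α : ℝ) (N : ℕ) (a₁ b₁ a₂ b₂ : ℝ) : ℝ :=
  |(((range N).filter fun n => (a₁ ≤ (z α n).1 ∧ (z α n).1 < b₁) ∧ (a₂ ≤ (z α n).2 ∧ (z α n).2 < b₂)).card : ℝ) / N
    - (b₁ - a₁) * (b₂ - a₂)|

/-- The discrepancy `D_N(α)` of the first `N` terms: the supremum of the local discrepancies over all boxes
`[a₁, b₁) × [a₂, b₂) ⊆ [0, 1) ^ 2`. -/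
noncomputable def D (α : ℝ) (N : ℕ) : ℝ :=
  sSup {t | ∃ a₁ b₁ a₂ b₂ : ℝ, (0 ≤ a₁ ∧ a₁ ≤ b₁ ∧ b₁ ≤ 1) ∧ (0 ≤ a₂ ∧ a₂ ≤ b₂ ∧ b₂ ≤ 1) ∧
    t = local_disc α N a₁ b₁ a₂ b₂}

lemma local_le (α : ℝ) (N : ℕ) {a₁ b₁ a₂ b₂ : ℝ} (h1 : 0 ≤ a₁ ∧ a₁ ≤ b₁ ∧ b₁ ≤ 1)
    (h2 : 0 ≤ a₂ ∧ a₂ ≤ b₂ ∧ b₂ ≤ 1) : local_disc α N a₁ b₁ a₂ b₂ ≤ 1 := by
  unfold local_disc
  set s := (range N).filter fun n => (a₁ ≤ (z α n).1 ∧ (z α n).1 < b₁) ∧ (a₂ ≤ (z α n).2 ∧ (z α n).2 < b₂)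
  have h3 : (s.card : ℝ) / N ≤ 1 := by
    apply div_le_one_of_le₀ _ (Nat.cast_nonneg _)
    have : s.card ≤ N := by
      have := card_filter_le (range N) fun n =>
        (a₁ ≤ (z α n).1 ∧ (z α n).1 < b₁) ∧ (a₂ ≤ (z α n).2 ∧ (z α n).2 < b₂)
      rwa [card_range] at this
    exact_mod_cast this
  have h4 : 0 ≤ (s.card : ℝ) / N := by positivity
  have h5 : 0 ≤ (b₁ - a₁) * (b₂ - a₂) := mul_nonneg (by linarith) (by linarith)
  have h6 : (b₁ - a₁) * (b₂ - a₂) ≤ 1 * 1 := by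
    apply mul_le_mul (by linarith) (by linarith) (by linarith) (by norm_num)
  rw [abs_le]
  constructor <;> linarith

lemma le_D (α : ℝ) (N : ℕ) {a₁ b₁ a₂ b₂ : ℝ} (h1 : 0 ≤ a₁ ∧ a₁ ≤ b₁ ∧ b₁ ≤ 1)
    (h2 : 0 ≤ a₂ ∧ a₂ ≤ b₂ ∧ b₂ ≤ 1) : local_disc α N a₁ b₁ a₂ b₂ ≤ D α N := by
  apply le_csSup
  · refine ⟨1, ?_⟩
    rintro t ⟨a₁, b₁, a₂, b₂, h1, h2, rfl⟩
    exact local_le α N h1 h2
  · exact ⟨a₁, b₁, a₂, b₂, h1, h2, rfl⟩

/-- For almost every `α` there is `C > 0` with `D_N(α) ≥ C (log N) ^ 2 / N` for infinitely many `N`. -/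
theorem result : ∀ᵐ α : ℝ, ∃ C : ℝ, 0 < C ∧ ∃ᶠ N : ℕ in atTop, C * (Real.log N) ^ 2 / N ≤ D α N := by
  have hT := Pool.Agent.R335.MK.khin
  have hR : ∀ᵐ α : ℝ, ((α : ℝ) : UnitAddCircle) ∈
      addWellApproximable UnitAddCircle Pool.Agent.R335.MK.del := by
    have hcube : ∀ n : ℤ, ∀ᵐ α ∂((volume : Measure ℝ).restrict (Set.Ioc (n : ℝ) (n + 1))),
        ((α : ℝ) : UnitAddCircle) ∈ addWellApproximable UnitAddCircle Pool.Agent.R335.MK.del := fun n =>
      (UnitAddCircle.measurePreserving_mk (n : ℝ)).quasiMeasurePreserving.ae hT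
    rw [← Measure.restrict_univ (μ := (volume : Measure ℝ)), ← iUnion_Ioc_intCast ℝ,
      ae_restrict_iUnion_iff]
    exact hcube
  filter_upwards [hR] with α hα
  refine ⟨1 / 50, by norm_num, ?_⟩
  rw [frequently_atTop]
  intro N0
  obtain ⟨j, k, i, A, hQ, hk, hki, hi, hji, hA⟩ := Pool.Agent.R335.MK.good_approx hα N0
  set N : ℕ := 2 ^ j * k * i ^ 2 with hN
  have hi2 : 1 ≤ i ^ 2 := Nat.one_le_pow _ _ (by omega)
  have hNge : N0 ≤ N := hQ.trans (Nat.le_mul_of_pos_right _ (by omega))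
  have hkR : (1 : ℝ) ≤ k := by exact_mod_cast hk
  have hiR : (1 : ℝ) ≤ i := by exact_mod_cast hi
  have hjR : (1 : ℝ) ≤ 2 ^ j := one_le_pow₀ (by norm_num)
  have hNR : (N : ℝ) = 2 ^ j * k * i ^ 2 := by
    rw [hN]
    push_cast
    rfl
  have hNpos : (1 : ℝ) ≤ N := by
    rw [hNR]
    have : (1 : ℝ) ≤ i ^ 2 := by nlinarith
    have h2 : (1 : ℝ) ≤ 2 ^ j * k := by nlinarith
    nlinarith
  refine ⟨N, hNge, ?_⟩
  have hbox := le_D α N (a₁ := 0) (b₁ := 1 / 2 ^ j) (a₂ := 1 / (4 * k)) (b₂ := 3 / (4 * k))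
    ⟨le_refl _, by positivity, by rw [div_le_one (by positivity)]; exact hjR⟩
    ⟨by positivity, by gcongr; norm_num, by rw [div_le_one (by positivity)]; linarith⟩
  have hcount : ((range N).filter fun n => ((0 : ℝ) ≤ (z α n).1 ∧ (z α n).1 < 1 / 2 ^ j) ∧
      (1 / (4 * (k : ℝ)) ≤ (z α n).2 ∧ (z α n).2 < 3 / (4 * k))) = ∅ := by
    rw [filter_eq_empty_iff]
    rintro n hn ⟨⟨_, h1⟩, h2, h3⟩
    exact Pool.Agent.R335.MK.empty_box hk hki hi hA (mem_range.1 hn) h1 h2 h3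
  have hval : local_disc α N 0 (1 / 2 ^ j) (1 / (4 * k)) (3 / (4 * k)) = i ^ 2 / (2 * N) := by
    unfold local_disc
    rw [hcount]
    simp only [card_empty, Nat.cast_zero, zero_div, zero_sub, sub_zero, abs_neg]
    rw [abs_of_nonneg (by
      apply mul_nonneg (by positivity)
      rw [← sub_div]
      exact div_nonneg (by norm_num) (by positivity))]
    rw [hNR]
    field_simp
    norm_num
  rw [hval] at hbox
  refine le_trans ?_ hbox
  have hlog : Real.log N ≤ 5 * i := by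
    have h1 : N ≤ 2 ^ (7 * i) := by
      have h2 : i ^ 2 ≤ 4 ^ i := by
        have h3 : i < 2 ^ i := Nat.lt_pow_self (by norm_num)
        calc i ^ 2 ≤ (2 ^ i) ^ 2 := Nat.pow_le_pow_left h3.le 2
          _ = 4 ^ i := by rw [← pow_mul, mul_comm, pow_mul]; norm_num
      calc N ≤ 2 ^ i * 4 ^ (i + 1) * 4 ^ i := by
            rw [hN]
            apply Nat.mul_le_mul (Nat.mul_le_mul (Nat.pow_le_pow_right (by norm_num) hji) hki.le) h2
        _ = 2 ^ (5 * i + 2) := by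
            rw [show (4 : ℕ) = 2 ^ 2 by norm_num, ← pow_mul, ← pow_mul, ← pow_add, ← pow_add]
            congr 1
            ring
        _ ≤ 2 ^ (7 * i) := Nat.pow_le_pow_right (by norm_num) (by omega)
    have h2 : Real.log N ≤ Real.log ((2 : ℝ) ^ (7 * i)) := by
      apply Real.log_le_log (by linarith)
      exact_mod_cast h1
    rw [Real.log_pow] at h2
    push_cast at h2
    have h3 := Real.log_two_lt_d9
    nlinarith
  have hlog0 : 0 ≤ Real.log N := Real.log_nonneg hNpos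
  have h1 : (Real.log N) ^ 2 ≤ 25 * i ^ 2 := by nlinarith
  rw [div_le_div_iff₀ (by linarith) (by linarith)]
  nlinarith

end Pool.Agent.Results.MP_4e48d5_nt.MetricLowerBound
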